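import Pool.Agent.Q136.NCC.All

/-!
# The number of normal rational curves of `PG(k-1, q)` which contain a given arc

`F` is a finite field, `2 ≤ k < q = #F`.  `IsNRC A`: the set of points `A` is the image of the standard normal rational
curve under a projectivity; `IsArcP K`: `K` has at least `k` points, any `k` of which have linearly independent
coordinate vectors (`Pool/Agent/Q136/NCC/Stm.lean`).
-/

set_option autoImplicit false

namespace Pool.Agent.Results.MP_8a9ebc_co.NumberOfCurves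

open Finset Pool.Agent.Q136.NCC
open scoped LinearAlgebra.Projectivization

theorem result (F : Type) [Field F] [Fintype F] (k n : ℕ) (hk : 2 ≤ k) (hq : k < Fintype.card F)
    (K : Finset (ℙ F (Fin k → F))) (hK : IsArcP K) (hn : K.card = n) :
    (k = 2 → {A : Set (ℙ F (Fin k → F)) | IsNRC A ∧ (K : Set (ℙ F (Fin k → F))) ⊆ A}.ncard = 1) ∧
    (3 ≤ k → n = k → {A : Set (ℙ F (Fin k → F)) | IsNRC A ∧ (K : Set (ℙ F (Fin k → F))) ⊆ A}.ncard =
      (Fintype.card F - 1) ^ (k - 1) * ∏ j ∈ Finset.Icc 2 (k - 2), (Fintype.card F - j)) ∧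
    (3 ≤ k → n = k + 1 → {A : Set (ℙ F (Fin k → F)) | IsNRC A ∧ (K : Set (ℙ F (Fin k → F))) ⊆ A}.ncard =
      ∏ j ∈ Finset.Icc 2 (k - 1), (Fintype.card F - j)) ∧
    (n = k + 2 → {A : Set (ℙ F (Fin k → F)) | IsNRC A ∧ (K : Set (ℙ F (Fin k → F))) ⊆ A}.ncard = 1) ∧
    (k + 2 ≤ n → (∃ A : Set (ℙ F (Fin k → F)), IsNRC A ∧ (K : Set (ℙ F (Fin k → F))) ⊆ A) →
      {A : Set (ℙ F (Fin k → F)) | IsNRC A ∧ (K : Set (ℙ F (Fin k → F))) ⊆ A}.ncard = 1) :=
  number_main uni exi cn1 cn0 tra F k n hk hq K hK hn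

end Pool.Agent.Results.MP_8a9ebc_co.NumberOfCurves
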