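import Pool.Agent.Q136.NCC.All

/-!
# The set of the sizes `n` for which every `n`-arc of `PG(k-1, q)` is contained in a normal rational curve

`F` is a finite field, `3 ≤ k < q = #F`.  `AllRat F k n` (`Pool/Agent/Q136/NCC/Set.lean`): every arc of `PG(k-1, q)` with
`n` points is contained in a normal rational curve.
-/

set_option autoImplicit false

namespace Pool.Agent.Results.MP_8a9ebc_co.SizesOfRationalArcs

open Finset Pool.Agent.Q136.NCC

theorem result (F : Type) [Field F] [Fintype F] (k : ℕ) (hk : 3 ≤ k) (hq : k < Fintype.card F) :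
    ∃ N : ℕ, (∀ n, k ≤ n → n ≤ Fintype.card F → (AllRat F k n ↔ (n ≤ k + 2 ∨ N < n))) ∧
      (Odd (Fintype.card F) → Fintype.card F + 3 ≤ 2 * N) ∧
      (Even (Fintype.card F) → Fintype.card F + 4 ≤ 2 * N ∧
        (k + 3 ≤ Fintype.card F → k + 3 ≤ N) ∧ (k = 3 → Fintype.card F ≤ N)) := by
  obtain ⟨N, h1, -, h2, h3⟩ := set_main uni exi cn1 cn0 tra pta F k hk hq
  exact ⟨N, h1, h2, h3⟩

end Pool.Agent.Results.MP_8a9ebc_co.SizesOfRationalArcs
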